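import Pool.Agent.HAR.Stmts

/-!
# Row PAI: the probability that two graphs have the same polynomial
-/

set_option autoImplicit false

namespace Pool.Agent.HAR.H81

open Finset Filter Topology Pool.Agent.HAR

theorem pai (sel : SelStmt) (cor : CorStmt) (nu2 : Nu2Stmt) (nu3 : Nu3Stmt) : PaiStmt := by
  classical
  intro c hc
  filter_upwards [sel c hc, nu2, nu3, eventually_ge_atTop 20] with n hsel hnu2 hnu3 hn G H hG hGH
  obtain ⟨v0, τ, T, hdat⟩ := hsel G H hG hGH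
  have h1 := cor (Fin n) (Cn n) (cn G) (cn H) v0 (uu n) (tt n) (5 * n ^ 2) (LL n) (et n) (MM n)
    (QQ n) τ T hdat
  refine h1.trans ?_
  obtain ⟨hL0, hL, het0, het1, hetL, hu, ht2, hsq, _, hall⟩ := hnu2
  set R : ℝ := ∏ r ∈ Ico (tt n) (uu n), (QQ n r : ℝ) with hR
  have hn20 : (20 : ℝ) ≤ n := by exact_mod_cast hn
  have hn1 : 1 ≤ n := by omega
  -- the product
  have hR1 : R ≤ 2 ^ (n * n) := by
    rw [hR]
    have h2 : ∏ r ∈ Ico (tt n) (uu n), (QQ n r : ℝ) ≤ ∏ _r ∈ Ico (tt n) (uu n), (2 : ℝ) ^ n := by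
      apply Finset.prod_le_prod
      · intro i _
        exact Nat.cast_nonneg _
      · intro i hi
        rw [Finset.mem_Ico] at hi
        exact (hall i hi.1 hi.2).2.2.1
    refine h2.trans ?_
    rw [Finset.prod_const, Nat.card_Ico, ← pow_mul]
    apply pow_le_pow_right₀ (by norm_num)
    apply Nat.mul_le_mul_left
    omega
  have hRpos : 0 < R := lt_of_lt_of_le (Real.rpow_pos_of_pos (by norm_num) _) hnu3
  set A : ℝ := (2 : ℝ) ^ (-(0.51 * (n : ℝ) ^ 2)) with hA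
  have hA0 : 0 < A := Real.rpow_pos_of_pos (by norm_num) _
  have hsqn : 20 * (n : ℝ) ≤ (n : ℝ) ^ 2 := by nlinarith
  -- first term
  have t1 : R * (LL n : ℝ) * (3 / 4) ^ (5 * n ^ 2) ≤ A := by
    have h34 : ((3 / 4 : ℝ)) ^ (5 * n ^ 2) ≤ (1 / 4) ^ (n ^ 2) := by
      rw [pow_mul]
      exact pow_le_pow_left₀ (by norm_num) (by norm_num) _
    have h2 : R * (LL n : ℝ) * (3 / 4) ^ (5 * n ^ 2) ≤
        2 ^ (n * n) * 2 ^ n * (1 / 4) ^ (n ^ 2) := by
      gcongr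
    refine h2.trans ?_
    have h3 : (2 : ℝ) ^ (n * n) * 2 ^ n * (1 / 4) ^ (n ^ 2) =
        (2 : ℝ) ^ ((n : ℝ) - (n : ℝ) ^ 2) := by
      have h4 : ((1 / 4 : ℝ)) ^ (n ^ 2) = ((2 : ℝ) ^ (2 * n ^ 2))⁻¹ := by
        rw [pow_mul, ← inv_pow]
        norm_num
      rw [h4, ← pow_add, ← Real.rpow_natCast, ← Real.rpow_natCast,
        ← Real.rpow_neg (by norm_num : (0 : ℝ) ≤ 2), ← Real.rpow_add (by norm_num : (0 : ℝ) < 2)]
      congr 1
      push_cast
      ring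
    rw [h3, hA]
    apply Real.rpow_le_rpow_of_exponent_le (by norm_num)
    nlinarith
  -- second term
  have t2 : R⁻¹ ≤ A := by
    rw [hA, Real.rpow_neg (by norm_num)]
    exact inv_anti₀ (Real.rpow_pos_of_pos (by norm_num) _) hnu3
  -- third term
  have t3 : Real.exp (-(2 * et n ^ 2 * (LL n : ℝ))) ≤ A := by
    have h5 : 2 * et n ^ 2 * (LL n : ℝ) = 2 * (n : ℝ) ^ 2 := by
      rw [mul_assoc, hetL]
    rw [h5, hA, Real.rpow_def_of_pos (by norm_num)]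
    apply Real.exp_le_exp.mpr
    have h6 : Real.log 2 ≤ 1 := by
      have := Real.log_two_lt_d9
      linarith
    have h7 : 0 < Real.log 2 := Real.log_pos (by norm_num)
    nlinarith [sq_nonneg (n : ℝ), mul_nonneg (sq_nonneg (n : ℝ)) (sub_nonneg.mpr h6)]
  have h8 : R * (LL n : ℝ) * (3 / 4) ^ (5 * n ^ 2) + R⁻¹ +
      Real.exp (-(2 * et n ^ 2 * (LL n : ℝ))) ≤ 3 * A := by linarith
  refine h8.trans ?_
  have h9 : (2 : ℝ) ^ (-(0.505 * (n : ℝ) ^ 2)) = (2 : ℝ) ^ (0.005 * (n : ℝ) ^ 2) * A := by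
    rw [hA, ← Real.rpow_add (by norm_num : (0 : ℝ) < 2)]
    congr 1
    ring
  rw [h9]
  apply mul_le_mul_of_nonneg_right _ hA0.le
  have h10 : (3 : ℝ) ≤ (2 : ℝ) ^ (2 : ℝ) := by
    norm_num
  refine h10.trans ?_
  apply Real.rpow_le_rpow_of_exponent_le (by norm_num)
  nlinarith

end Pool.Agent.HAR.H81
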